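import Pool.Agent.Run7.h716.ZW.Defs

/-!
# Project ZW (helper716), piece ENDS: start and end
-/

set_option autoImplicit false

open Polynomial

namespace Run7.h305.ZW

open Run7.h716.ZW

theorem ends_big (L : Finset ℝ[X]) (h : ℝ[X] → ℝ) (hh : ∀ A, 0 < h A) :
    ∃ a0 : ℝ, 0 < a0 ∧ ∀ A ∈ L, h A ≤ a0 := by
  classical
  induction L using Finset.induction_on with
  | empty => exact ⟨1, one_pos, by simp⟩
  | insert A L _ ih =>
    obtain ⟨a, ha, hL⟩ := ih
    refine ⟨a + h A, by linarith [hh A], ?_⟩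
    intro B hB
    rcases Finset.mem_insert.1 hB with hB | hB
    · rw [hB]; linarith
    · have := hL B hB
      linarith [hh A]

theorem ends_small (L : Finset ℝ[X]) (h : ℝ[X] → ℝ) (hh : ∀ A, 0 < h A) :
    ∃ b0 : ℝ, 0 < b0 ∧ ∀ A ∈ L, b0 ≤ h A := by
  classical
  induction L using Finset.induction_on with
  | empty => exact ⟨1, one_pos, by simp⟩
  | insert A L _ ih =>
    obtain ⟨b, hb, hL⟩ := ih
    refine ⟨min b (h A), lt_min hb (hh A), ?_⟩
    intro B hB
    rcases Finset.mem_insert.1 hB with hB | hB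
    · rw [hB]; exact min_le_right _ _
    · exact (min_le_left _ _).trans (hL B hB)

theorem ends_sep (R : ℕ) (f : ℤ → ℝ) (c : ℝ) (hc : c ≠ 0) (h : ∀ k, 0 ≤ c * f k) : Sep R f := by
  intro k k' h1 h2
  exfalso
  apply hc
  have h3 : 0 ≤ c := nonneg_of_mul_nonneg_left (h k) h1
  have h4 : c ≤ 0 := by
    by_contra h5
    have h6 := mul_neg_of_pos_of_neg (not_le.1 h5) h2
    linarith [h k']
  linarith

theorem t_ENDS (hBIG : S_BIG) (hSMALL : S_SMALL) : S_ENDS := by
  classical
  intro L R hL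
  have hne : ∀ A ∈ L, A ≠ 0 := by
    intro A hA h0
    apply hL A hA
    rw [h0, coeff_zero]
  constructor
  · have h1 : ∀ A : ℝ[X], ∃ a0 : ℝ, 0 < a0 ∧ (A ≠ 0 → ∀ F : ℤ → ℝ, (∀ k, 0 ≤ F k) →
        (∀ k, a0 * F k ≤ F (k + 1)) → ∀ k, 0 ≤ A.leadingCoeff * ap A F k) := by
      intro A
      by_cases hA : A = 0
      · exact ⟨1, one_pos, fun h => absurd hA h⟩
      · obtain ⟨a0, ha0, h⟩ := hBIG A hA
        exact ⟨a0, ha0, fun _ => h⟩
    choose h hpos hh using h1
    obtain ⟨a0, ha0, hle⟩ := ends_big L h hpos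
    refine ⟨a0, ha0, fun a ha => ?_⟩
    have hap : 0 < a := lt_of_lt_of_le ha0 ha
    let F : ℤ → ℝ := fun k => if k < 0 then 0 else a ^ k
    have hF0 : ∀ k, 0 ≤ F k := by
      intro k
      simp only [F]
      split_ifs
      · exact le_rfl
      · exact (zpow_pos hap k).le
    have hstep : ∀ k, a * F k ≤ F (k + 1) := by
      intro k
      by_cases hk : k < 0
      · have h2 : F k = 0 := by simp only [F]; rw [if_pos hk]
        rw [h2, mul_zero]
        exact hF0 _
      · have h2 : F k = a ^ k := by simp only [F]; rw [if_neg hk]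
        have h3 : F (k + 1) = a ^ (k + 1) := by
          simp only [F]; rw [if_neg (by omega)]
        rw [h2, h3, zpow_add_one₀ hap.ne', mul_comm]
    refine ⟨F, ⟨hF0, ⟨0, ?_⟩, ⟨0, ?_⟩, ⟨0, 1, one_pos, ?_⟩, ?_, ?_, ?_⟩⟩
    · simp [F]
    · intro k hk
      simp only [F]; rw [if_pos hk]
    · intro k hk
      simp only [F]; rw [if_neg (by omega), one_mul]
    · intro x hx
      exact absurd hx (by simp)
    · intro x hx k
      have h2 : a = x := Option.some.inj hx
      rw [← h2]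
      exact hstep k
    · intro A hA
      refine ends_sep R _ A.leadingCoeff (leadingCoeff_ne_zero.2 (hne A hA)) ?_
      refine hh A (hne A hA) F hF0 fun k => ?_
      exact (mul_le_mul_of_nonneg_right ((hle A hA).trans ha) (hF0 k)).trans (hstep k)
  · have h1 : ∀ A : ℝ[X], ∃ b0 : ℝ, 0 < b0 ∧ (A.coeff 0 ≠ 0 → ∀ F : ℤ → ℝ, (∀ k, 0 ≤ F k) →
        (∀ k, F (k + 1) ≤ b0 * F k) → ∀ k, 0 ≤ A.coeff 0 * ap A F k) := by
      intro A
      by_cases hA : A.coeff 0 = 0
      · exact ⟨1, one_pos, fun h => absurd hA h⟩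
      · obtain ⟨b0, hb0, h⟩ := hSMALL A hA
        exact ⟨b0, hb0, fun _ => h⟩
    choose h hpos hh using h1
    obtain ⟨b0, hb0, hle⟩ := ends_small L h hpos
    refine ⟨b0, hb0, fun b hb hbb => ?_⟩
    let F : ℤ → ℝ := fun k => if k ≤ 0 then b ^ k else 0
    have hF0 : ∀ k, 0 ≤ F k := by
      intro k
      simp only [F]
      split_ifs
      · exact (zpow_pos hb k).le
      · exact le_rfl
    have hstep : ∀ k, F (k + 1) ≤ b * F k := by
      intro k
      by_cases hk : k + 1 ≤ 0
      · have h2 : F k = b ^ k := by simp only [F]; rw [if_pos (by omega)]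
        have h3 : F (k + 1) = b ^ (k + 1) := by
          simp only [F]; rw [if_pos hk]
        rw [h2, h3, zpow_add_one₀ hb.ne', mul_comm]
      · have h3 : F (k + 1) = 0 := by
          simp only [F]; rw [if_neg hk]
        rw [h3]
        exact mul_nonneg hb.le (hF0 k)
    refine ⟨F, ⟨hF0, ⟨0, ?_⟩, ⟨0, 1, one_pos, ?_⟩, ⟨0, ?_⟩, ?_, ?_, ?_⟩⟩
    · simp [F]
    · intro k hk
      simp only [F]; rw [if_pos hk.le, one_mul]
    · intro k hk
      simp only [F]; rw [if_neg (by omega)]
    · intro x hx k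
      have h2 : b = x := Option.some.inj hx
      rw [← h2]
      exact hstep k
    · intro x hx
      exact absurd hx (by simp)
    · intro A hA
      refine ends_sep R _ (A.coeff 0) (hL A hA) ?_
      refine hh A (hL A hA) F hF0 fun k => ?_
      exact (hstep k).trans (mul_le_mul_of_nonneg_right (hbb.trans (hle A hA)) (hF0 k))

end Run7.h305.ZW
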