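import Pool.Agent.Run7.h716.ZW.Defs

/-!
# Project ZW (helper716), piece SMALL: ratios small
-/

set_option autoImplicit false

open Polynomial

namespace Run7.h305.ZW

open Run7.h716.ZW

theorem t_SMALL : S_SMALL := by
  intro A hA
  set d := A.natDegree with hd
  set S : ℝ := ∑ j ∈ Finset.range (d + 1), |A.coeff j| with hS
  have hc : 0 < |A.coeff 0| := abs_pos.2 hA
  have hcS : |A.coeff 0| ≤ S :=
    Finset.single_le_sum (f := fun j => |A.coeff j|) (fun j _ => abs_nonneg _)
      (Finset.mem_range.2 (Nat.succ_pos d))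
  have hS0 : 0 < S := lt_of_lt_of_le hc hcS
  refine ⟨|A.coeff 0| / S, div_pos hc hS0, ?_⟩
  intro F hF hstep k
  set b := |A.coeff 0| / S with hb
  have hb0 : 0 < b := div_pos hc hS0
  have hb1 : b ≤ 1 := (div_le_one hS0).2 hcS
  have hpow : ∀ j : ℕ, F (k + (j + 1 : ℕ)) ≤ b * F k := by
    intro j
    induction j with
    | zero => simpa using hstep k
    | succ j ih =>
      have h1 := hstep (k + (j + 1 : ℕ))
      have h2 : k + ((j + 1 + 1 : ℕ) : ℤ) = k + ((j + 1 : ℕ) : ℤ) + 1 := by push_cast; ring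
      rw [h2]
      have h3 : b * F (k + ((j + 1 : ℕ) : ℤ)) ≤ 1 * F (k + ((j + 1 : ℕ) : ℤ)) :=
        mul_le_mul_of_nonneg_right hb1 (hF _)
      linarith
  rw [ap_apply, Finset.sum_range_succ']
  have h1 : |∑ j ∈ Finset.range d, A.coeff (j + 1) * F (k + ((j + 1 : ℕ) : ℤ))| ≤
      |A.coeff 0| * F k := by
    calc |∑ j ∈ Finset.range d, A.coeff (j + 1) * F (k + ((j + 1 : ℕ) : ℤ))|
        ≤ ∑ j ∈ Finset.range d, |A.coeff (j + 1) * F (k + ((j + 1 : ℕ) : ℤ))| :=
          Finset.abs_sum_le_sum_abs _ _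
      _ ≤ ∑ j ∈ Finset.range d, |A.coeff (j + 1)| * (b * F k) := by
          refine Finset.sum_le_sum fun j _ => ?_
          rw [abs_mul, abs_of_nonneg (hF _)]
          exact mul_le_mul_of_nonneg_left (hpow j) (abs_nonneg _)
      _ = (∑ j ∈ Finset.range d, |A.coeff (j + 1)|) * (b * F k) := by rw [Finset.sum_mul]
      _ ≤ S * (b * F k) := by
          refine mul_le_mul_of_nonneg_right ?_ (mul_nonneg hb0.le (hF k))
          rw [hS, Finset.sum_range_succ']
          linarith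
      _ = |A.coeff 0| * F k := by
          rw [hb]; field_simp
  have h2 : F (k + ((0 : ℕ) : ℤ)) = F k := by simp
  rw [h2, mul_add]
  have h3 := (abs_le.1 (show |A.coeff 0 * ∑ j ∈ Finset.range d, A.coeff (j + 1) *
      F (k + ((j + 1 : ℕ) : ℤ))| ≤ |A.coeff 0| * (|A.coeff 0| * F k) by
    rw [abs_mul]
    exact mul_le_mul_of_nonneg_left h1 (abs_nonneg _))).1
  have h4 : |A.coeff 0| * (|A.coeff 0| * F k) = A.coeff 0 * (A.coeff 0 * F k) := by
    rw [← mul_assoc, abs_mul_abs_self, mul_assoc]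
  linarith

end Run7.h305.ZW
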